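import Pool.Agent.H705.GB.Fin

/-!
# The gcd recursion for Goldbach pairs in the random model

Let `c = a (n - 1) + n` be the level before step `n`; then the gcd of the recursion is `gcd (c, n)` for even `n` and
`gcd (2 N - c, n + 2 (N - c))` for odd `n`, and at the zero `g` the level is `c = g + 1`. In the model every number `m` is
replaced by the random integer `par Y m = 2 Y m + m % 2` of the same parity, `Y m` uniformly distributed on `0, …, M m - 1`,
where `M m` is divisible by `1, …, m` (for instance `M m = m!`; so the residues modulo the odd primes `p ≤ m` are uniform and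
independent), all the `Y m` being independent. The number `m` is prime in the model if its substitute has no prime factor `p`
with `p ^ 2 ≤ m`, and the gcd with a smaller number is then `1`.
-/

set_option autoImplicit false

namespace Pool.Agent.Results.MP_b5e119_nt.RandomModel

open MeasureTheory ProbabilityTheory Finset Filter Topology Pool.Agent.H705.GB
open Pool.Agent.H705.TR (PrimeIn Model)

/-- (1) `PrimeIn m m` means that `m` is prime, `par Y m = m` for `Y m = m / 2`, and for `x m = m` the recursion `aseq` is the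
recursion of the problem up to its zero, so that `F id N = g_N`. (2) `F x N` is always the least zero. (3) For all `M` the random
model exists, and in it almost surely: (a) for every `ε > 0` and all large `N`, with `g = F N`, the numbers `g + 1` and
`2 N - g - 1` are prime in the model and `N - g ≤ N ^ (1/2 + ε)`; (b) for all `0 < t ≤ 1` simultaneously the set of the `N` with
`N - g_N ≤ N ^ (t / 2)` has the natural density `t ^ 2`. -/
theorem result :
    ((∀ m : ℕ, 2 ≤ m → (PrimeIn m m ↔ m.Prime)) ∧ (par (fun m => m / 2) = id) ∧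
      ∀ N : ℕ, 3 ≤ N → ∀ a : ℕ → ℤ, a 1 = (N : ℤ) - 2 →
        (∀ n : ℕ, 2 ≤ n → a n = a (n - 1) - (Int.gcd (a (n - 1)) ((N : ℤ) - (-1) ^ n * ((N : ℤ) - n)) : ℤ)) →
        (∀ n : ℕ, 1 ≤ n → n ≤ F id N → (aseq id N n : ℤ) = a n) ∧ IsLeast {n : ℕ | 2 ≤ n ∧ a n = 0} (F id N)) ∧
    (∀ (x : ℕ → ℕ) (N : ℕ), 3 ≤ N → IsLeast {n : ℕ | 2 ≤ n ∧ aseq x N n = 0} (F x N)) ∧
    (∀ M : ℕ → ℕ, (∀ m, Full m (M m)) →
      (∃ (Ω : Type) (_ : MeasurableSpace Ω) (P : Measure Ω) (Y : ℕ → Ω → ℕ), Model M P Y) ∧
      ∀ (Ω : Type) [MeasurableSpace Ω] (P : Measure Ω) (Y : ℕ → Ω → ℕ), Model M P Y → ∀ᵐ ω ∂P,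
        (∀ ε : ℝ, 0 < ε → ∃ N₀ : ℕ, ∀ N : ℕ, N₀ ≤ N →
          PrimeIn (F (par fun m => Y m ω) N + 1) (par (fun m => Y m ω) (F (par fun m => Y m ω) N + 1)) ∧
          PrimeIn (2 * N - (F (par fun m => Y m ω) N + 1))
            (par (fun m => Y m ω) (2 * N - (F (par fun m => Y m ω) N + 1))) ∧
          (N : ℝ) - F (par fun m => Y m ω) N ≤ (N : ℝ) ^ (1 / 2 + ε)) ∧
        ∀ t : ℝ, 0 < t → t ≤ 1 → Tendsto (fun x : ℕ =>
          (open Classical in (((range x).filter (fun N : ℕ =>
            (N : ℝ) - F (par fun m => Y m ω) N ≤ (N : ℝ) ^ (t / 2))).card : ℝ)) / x) atTop (𝓝 (t ^ 2))) :=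
  Pool.Agent.H705.GB.main

end Pool.Agent.Results.MP_b5e119_nt.RandomModel
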